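import Pool.Agent.Helper50.VC.Main

set_option autoImplicit false

/-! # Symbolic blowup algebras of varieties of complexes are Noetherian

Let `K` be any field, `Y` and `Z` the generic `m × t` and `t × n` matrices, `S = K[Y, Z]`
(`MvPolynomial (Var m t n) K`), `r + s ≤ t`, and `𝔭 = I_{r+1}(Y) + I_{s+1}(Z) + I_1(YZ)`
(`complexIdeal K m t n r s`). We prove that `𝔭` is prime and that the symbolic Rees algebra
`⊕_k 𝔭^(k)` (`symbolicRees`) and the symbolic associated graded algebra `⊕_k 𝔭^(k) / 𝔭^(k+1)`
(`SymbolicGr`) are Noetherian.

The proof. Take the lexicographic order with `y_11 > y_12 > ⋯ > y_mt > z_11 > z_21 > ⋯`.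
A set `F` of variables is good if a chain in `F` (a diagonal of a minor of `Y` and a diagonal of a
minor of `Z`) has at most `r` elements in `Y`, at most `s` in `Z`, and at most `x` elements in the
first `x` columns of `Y` and rows of `Z`.
* No element of `𝔭` has a leading monomial supported on a good set: there is a point of the variety
  over a field of Laurent series with suitable valuations of the coordinates. The point is made
  path by path, from potentials of Monge arrays (`exists_potentials`, `exists_pt`).
* With divided derivatives, the leading monomial of an element of `𝔭^(k)` has degree at least `k`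
  outside of each good set (`le_sum_compl`).
* By the duality for the assignment problem, such a monomial is divisible by a product of chains of
  total value at least `k` (`exists_decomposition`).
* Each chain of value `v` is the leading monomial of an explicit element of `𝔭^(v)`: a product of a
  minor of `Y` and a minor of `Z`, or a determinant with entries of `YZ`, `Y`, `Z`, `1` and `0`
  (`exists_element`).
So the symbolic Rees algebra is generated by these elements (`symbolicRees_eq_adjoin`). -/

namespace Pool.Agent.Results.MP_e85a6b_ag.SymbolicBlowupsNoetherian

open Pool.Agent.Helper50.VC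

/-- For every field `K`, all `m, t, n` and all `r, s` with `r + s ≤ t`, the ideal
`𝔭 = I_{r+1}(Y) + I_{s+1}(Z) + I_1(YZ)` of `K[Y, Z]` is prime, and its symbolic Rees algebra
`⊕_k 𝔭^(k)` and its symbolic associated graded algebra `⊕_k 𝔭^(k) / 𝔭^(k+1)` are Noetherian. -/
theorem result (K : Type*) [Field K] (m t n r s : ℕ) (hrs : r + s ≤ t) :
    ∃ _ : (complexIdeal K m t n r s).IsPrime,
      IsNoetherianRing (symbolicRees (complexIdeal K m t n r s)) ∧
      IsNoetherianRing (SymbolicGr (complexIdeal K m t n r s)) :=
  main K m t n r s hrs

end Pool.Agent.Results.MP_e85a6b_ag.SymbolicBlowupsNoetherian
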